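import Pool.Agent.Work.MP_db9399_sw.Short

/-!
# MP_db9399, PHASE 2: proof of `Stmt_CHO` (helper54)
-/

set_option autoImplicit false

namespace Pool.Agent.Work.MP_db9399_sw_helper54

open Finset Classical
open Pool.Agent.Work.MP_db9399_sw

/-- three disjoint subsets of `A` can be completed to a partition of `A` with given sizes -/
theorem fill {D : Type} (A : Finset D) (B : Fin 3 → Finset D) (N : Fin 3 → ℕ)
    (hB : ∀ i, B i ⊆ A) (hd : ∀ i j, i ≠ j → Disjoint (B i) (B j)) (hN : ∀ i, (B i).card ≤ N i)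
    (hs : N 0 + N 1 + N 2 = A.card) :
    ∃ K : Fin 3 → Finset D, (∀ i, B i ⊆ K i) ∧ (∀ i, K i ⊆ A) ∧
      (∀ i j, i ≠ j → Disjoint (K i) (K j)) ∧ (∀ i, (K i).card = N i) ∧
      (∀ b ∈ A, ∃ i, b ∈ K i) := by
  have h01 := hd 0 1 (by decide)
  have h02 := hd 0 2 (by decide)
  have h12 := hd 1 2 (by decide)
  have hU : (B 0 ∪ B 1 ∪ B 2) ⊆ A := by
    intro b hb
    simp only [mem_union] at hb
    rcases hb with (hb | hb) | hb
    · exact hB 0 hb
    · exact hB 1 hb
    · exact hB 2 hb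
  have hUc : (B 0 ∪ B 1 ∪ B 2).card = (B 0).card + (B 1).card + (B 2).card := by
    rw [card_union_of_disjoint (disjoint_union_left.2 ⟨h02, h12⟩), card_union_of_disjoint h01]
  have hR : (A \ (B 0 ∪ B 1 ∪ B 2)).card + ((B 0).card + (B 1).card + (B 2).card) = A.card := by
    rw [← hUc]
    exact card_sdiff_add_card_eq_card hU
  have n0 := hN 0
  have n1 := hN 1
  have n2 := hN 2
  obtain ⟨R0, hR0, hR0c⟩ := exists_subset_card_eq
    (show N 0 - (B 0).card ≤ (A \ (B 0 ∪ B 1 ∪ B 2)).card by omega)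
  have hR0' : ((A \ (B 0 ∪ B 1 ∪ B 2)) \ R0).card + R0.card =
      (A \ (B 0 ∪ B 1 ∪ B 2)).card := card_sdiff_add_card_eq_card hR0
  obtain ⟨R1, hR1, hR1c⟩ := exists_subset_card_eq
    (show N 1 - (B 1).card ≤ ((A \ (B 0 ∪ B 1 ∪ B 2)) \ R0).card by omega)
  have hR1' : (((A \ (B 0 ∪ B 1 ∪ B 2)) \ R0) \ R1).card + R1.card =
      ((A \ (B 0 ∪ B 1 ∪ B 2)) \ R0).card := card_sdiff_add_card_eq_card hR1
  have hall : ∀ P : Fin 3 → Prop, P 0 → P 1 → P 2 → ∀ i, P i := by
    intro P p0 p1 p2 i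
    fin_cases i
    · exact p0
    · exact p1
    · exact p2
  set R := A \ (B 0 ∪ B 1 ∪ B 2) with hRd
  set R2 := (R \ R0) \ R1 with hR2d
  have hRm : ∀ b, b ∈ R ↔ b ∈ A ∧ b ∉ B 0 ∧ b ∉ B 1 ∧ b ∉ B 2 := by
    intro b
    rw [hRd]
    simp only [mem_sdiff, mem_union]
    tauto
  have m0 : ∀ b, b ∈ R0 → b ∈ R := fun b hb => hR0 hb
  have m1 : ∀ b, b ∈ R1 → b ∈ R ∧ b ∉ R0 := fun b hb => by
    have := hR1 hb
    simpa only [mem_sdiff] using this
  have m2 : ∀ b, b ∈ R2 ↔ (b ∈ R ∧ b ∉ R0) ∧ b ∉ R1 := fun b => by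
    rw [hR2d]; simp only [mem_sdiff]
  let F : Fin 3 → Finset D := fun i => if i = 0 then R0 else if i = 1 then R1 else R2
  have F0 : F 0 = R0 := rfl
  have F1 : F 1 = R1 := rfl
  have F2 : F 2 = R2 := rfl
  have key : ∀ i j, i ≠ j → Disjoint (F i) (F j) := by
    have d01 : Disjoint R0 R1 := by
      rw [Finset.disjoint_left]; intro b hb hb'; exact (m1 b hb').2 hb
    have d02 : Disjoint R0 R2 := by
      rw [Finset.disjoint_left]; intro b hb hb'; exact ((m2 b).1 hb').1.2 hb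
    have d12 : Disjoint R1 R2 := by
      rw [Finset.disjoint_left]; intro b hb hb'; exact ((m2 b).1 hb').2 hb
    intro i j hij
    fin_cases i <;> fin_cases j
    · exact absurd rfl hij
    · exact d01
    · exact d02
    · exact d01.symm
    · exact absurd rfl hij
    · exact d12
    · exact d02.symm
    · exact d12.symm
    · exact absurd rfl hij
  have FR : ∀ i, ∀ b ∈ F i, b ∈ R := by
    refine hall _ ?_ ?_ ?_
    · exact fun b hb => m0 b hb
    · exact fun b hb => (m1 b hb).1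
    · exact fun b hb => ((m2 b).1 hb).1.1
  have RB : ∀ b ∈ R, ∀ i, b ∉ B i := by
    intro b hb
    have h := (hRm b).1 hb
    exact hall _ h.2.1 h.2.2.1 h.2.2.2
  have BF : ∀ i j, Disjoint (B i) (F j) := by
    intro i j
    rw [Finset.disjoint_left]
    intro b hb hb'
    exact RB b (FR j b hb') i hb
  refine ⟨fun i => B i ∪ F i, fun i => subset_union_left, ?_, ?_, ?_, ?_⟩
  · intro i b hb
    simp only [mem_union] at hb
    rcases hb with hb | hb
    · exact hB i hb
    · exact ((hRm b).1 (FR i b hb)).1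
  · intro i j hij
    simp only [disjoint_union_left, disjoint_union_right]
    exact ⟨⟨hd i j hij, (BF j i).symm⟩, BF i j, key i j hij⟩
  · have hcu : ∀ i, (B i ∪ F i).card = (B i).card + (F i).card := fun i =>
      card_union_of_disjoint (BF i i)
    refine hall _ ?_ ?_ ?_
    · show (B 0 ∪ F 0).card = N 0
      rw [hcu, F0]; omega
    · show (B 1 ∪ F 1).card = N 1
      rw [hcu, F1]; omega
    · show (B 2 ∪ F 2).card = N 2
      rw [hcu, F2]; omega
  · intro b hb
    by_cases h0 : b ∈ B 0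
    · exact ⟨0, mem_union_left _ h0⟩
    by_cases h1 : b ∈ B 1
    · exact ⟨1, mem_union_left _ h1⟩
    by_cases h2 : b ∈ B 2
    · exact ⟨2, mem_union_left _ h2⟩
    have hbR : b ∈ R := (hRm b).2 ⟨hb, h0, h1, h2⟩
    by_cases r0 : b ∈ R0
    · exact ⟨0, mem_union_right _ r0⟩
    by_cases r1 : b ∈ R1
    · exact ⟨1, mem_union_right _ r1⟩
    · exact ⟨2, mem_union_right _ ((m2 b).2 ⟨⟨hbR, r0⟩, r1⟩)⟩

/-- the split of the colours `A` into three parts -/
theorem splt {D : Type} (n : Fin 3 → ℕ) (pn w : ℕ) (A S Hv : Finset D) (P : Fin 3 → Finset D)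
    (hi : D → Fin 3) (hS : S ⊆ A \ Hv) (hc : 3 * w ≤ S.card)
    (hP : ∀ i j, i ≠ j → Disjoint (P i) (P j)) (hn : ∀ i j, Hv.card + (P j).card + w ≤ n i)
    (hA : n 0 + n 1 + n 2 + pn = A.card) :
    ∃ (W : Finset D) (i0 : Fin 3) (K : Fin 3 → Finset D),
      (∀ i j, i ≠ j → Disjoint (K i) (K j)) ∧ (∀ i, K i ⊆ A) ∧
      (∀ i, (K i).card = n i + if i = i0 then pn else 0) ∧
      (∀ i, ∀ b ∈ K i, b ∈ Hv → hi b = i) ∧ (∀ i, ∀ b ∈ K i, b ∉ Hv → b ∉ P i) ∧
      W ⊆ K i0 ∧ W ⊆ S ∧ w ≤ W.card ∧ (∀ b ∈ A, ∃ i, b ∈ K i) := by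
  -- the third for `W`
  have hcov : S ⊆ univ.biUnion (fun i : Fin 3 => S.filter (fun b => b ∉ P i ∧ b ∉ P (i + 1))) := by
    intro b hb
    simp only [mem_biUnion, mem_univ, true_and, mem_filter]
    by_cases hj : ∃ j, b ∈ P j
    · obtain ⟨j, hj⟩ := hj
      refine ⟨j + 1, hb, ?_, ?_⟩
      · intro h
        exact Finset.disjoint_left.1 (hP j (j + 1) (by fin_cases j <;> decide)) hj h
      · intro h
        exact Finset.disjoint_left.1 (hP j (j + 1 + 1) (by fin_cases j <;> decide)) hj h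
    · push Not at hj
      exact ⟨0, hb, hj _, hj _⟩
  have hex : ∃ i : Fin 3, w ≤ (S.filter (fun b => b ∉ P i ∧ b ∉ P (i + 1))).card := by
    by_contra hcon
    push Not at hcon
    have h1 := (card_le_card hcov).trans card_biUnion_le
    rw [Fin.sum_univ_three] at h1
    have := hcon 0
    have := hcon 1
    have := hcon 2
    omega
  obtain ⟨i0, hi0⟩ := hex
  obtain ⟨W, hW, hWc⟩ := exists_subset_card_eq hi0
  have hWm : ∀ b ∈ W, b ∈ S ∧ b ∉ P i0 ∧ b ∉ P (i0 + 1) := by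
    intro b hb
    have := hW hb
    simpa only [mem_filter] using this
  let B : Fin 3 → Finset D := fun i =>
    (A.filter (fun b => b ∈ Hv ∧ hi b = i)) ∪ (A.filter (fun b => b ∉ Hv ∧ b ∈ P (i + 2))) ∪
      (if i = i0 then W else ∅)
  have hBm : ∀ i b, b ∈ B i → b ∈ A ∧ ((b ∈ Hv ∧ hi b = i) ∨ (b ∉ Hv ∧ b ∈ P (i + 2)) ∨
      (i = i0 ∧ b ∈ W)) := by
    intro i b hb
    simp only [B, mem_union, mem_filter] at hb
    rcases hb with (hb | hb) | hb
    · exact ⟨hb.1, Or.inl hb.2⟩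
    · exact ⟨hb.1, Or.inr (Or.inl hb.2)⟩
    · by_cases h : i = i0
      · rw [if_pos h] at hb
        exact ⟨(mem_sdiff.1 (hS (hWm b hb).1)).1, Or.inr (Or.inr ⟨h, hb⟩)⟩
      · rw [if_neg h] at hb
        exact absurd hb (notMem_empty _)
  have hBd : ∀ i j, i ≠ j → Disjoint (B i) (B j) := by
    intro i j hij
    rw [Finset.disjoint_left]
    intro b hb hb'
    have hWH : ∀ b ∈ W, b ∉ Hv := fun b hb => (mem_sdiff.1 (hS (hWm b hb).1)).2
    rcases (hBm i b hb).2 with h | h | h <;> rcases (hBm j b hb').2 with h' | h' | h'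
    · exact hij (h.2.symm.trans h'.2)
    · exact h'.1 h.1
    · exact hWH b h'.2 h.1
    · exact h.1 h'.1
    · exact Finset.disjoint_left.1 (hP (i + 2) (j + 2)
        (fun h => hij (add_right_cancel h))) h.2 h'.2
    · have h3 := (hWm b h'.2).2
      have hj : j = i0 := h'.1
      subst hj
      have hii : i + 2 = j ∨ i + 2 = j + 1 := by
        clear * - hij
        revert hij; revert i j; decide
      rcases hii with hii | hii
      · rw [hii] at h; exact h3.1 h.2
      · rw [hii] at h; exact h3.2 h.2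
    · exact hWH b h.2 h'.1
    · have h3 := (hWm b h.2).2
      have hj : i = i0 := h.1
      subst hj
      have hii : j + 2 = i ∨ j + 2 = i + 1 := by
        clear * - hij
        revert hij; revert i j; decide
      rcases hii with hii | hii
      · rw [hii] at h'; exact h3.1 h'.2
      · rw [hii] at h'; exact h3.2 h'.2
    · exact hij (h.1.trans h'.1.symm)
  have hBc : ∀ i, (B i).card ≤ n i + if i = i0 then pn else 0 := by
    intro i
    have h1 : (A.filter (fun b => b ∈ Hv ∧ hi b = i)).card ≤ Hv.card :=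
      card_le_card (fun b hb => (mem_filter.1 hb).2.1)
    have h2 : (A.filter (fun b => b ∉ Hv ∧ b ∈ P (i + 2))).card ≤ (P (i + 2)).card :=
      card_le_card (fun b hb => (mem_filter.1 hb).2.2)
    have h3 : (if i = i0 then W else ∅).card ≤ w := by
      by_cases h : i = i0
      · rw [if_pos h]; exact hWc.le
      · rw [if_neg h]; simp
    have h4 : (B i).card ≤ (A.filter (fun b => b ∈ Hv ∧ hi b = i)).card +
        (A.filter (fun b => b ∉ Hv ∧ b ∈ P (i + 2))).card + (if i = i0 then W else ∅).card :=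
      (card_union_le _ _).trans (Nat.add_le_add_right (card_union_le _ _) _)
    have h5 := hn i (i + 2)
    omega
  have hBA : ∀ i, B i ⊆ A := fun i b hb => (hBm i b hb).1
  have hsum : (n 0 + if (0 : Fin 3) = i0 then pn else 0) + (n 1 + if (1 : Fin 3) = i0 then pn else 0)
      + (n 2 + if (2 : Fin 3) = i0 then pn else 0) = A.card := by
    rw [← hA]
    fin_cases i0
    · simp; omega
    · simp; omega
    · simp; omega
  obtain ⟨K, hK1, hK2, hK3, hK4, hK5⟩ := fill A B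
    (fun i => n i + if i = i0 then pn else 0) hBA hBd hBc hsum
  refine ⟨W, i0, K, hK3, hK2, hK4, ?_, ?_, ?_, fun b hb => (hWm b hb).1, hWc.ge, hK5⟩
  · intro i b hb hbH
    by_contra hne
    have hbB : b ∈ B (hi b) := by
      simp only [B, mem_union, mem_filter]
      exact Or.inl (Or.inl ⟨hK2 i hb, hbH, trivial⟩)
    exact Finset.disjoint_left.1 (hK3 (hi b) i hne) (hK1 _ hbB) hb
  · intro i b hb hbH hbP
    have hbB : b ∈ B (i + 1) := by
      simp only [B, mem_union, mem_filter]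
      refine Or.inl (Or.inr ⟨hK2 i hb, hbH, ?_⟩)
      have : i + 1 + 2 = i := by fin_cases i <;> decide
      rw [this]; exact hbP
    exact Finset.disjoint_left.1 (hK3 (i + 1) i (by fin_cases i <;> decide)) (hK1 _ hbB) hb
  · intro b hb
    apply hK1
    simp only [B, mem_union, if_pos]
    exact Or.inr hb


theorem stmt_CHO : Stmt_CHO := by
  intro π h1 h2
  set ε := 1 / 3 - π with hε
  have hε0 : 0 < ε := by rw [hε]; linarith
  have hε1 : ε ≤ 1 / 12 := by rw [hε]; linarith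
  set θ := ε / 10 ^ 6 with hθ
  have hθ0 : 0 < θ := by rw [hθ]; positivity
  have hεθ : ε = 10 ^ 6 * θ := by rw [hθ]; ring
  refine ⟨θ, θ, ⌈10 / θ⌉₊, hθ0, ?_, hθ0, ?_⟩
  · rw [hθ]; norm_num; linarith
  intro D d m pn w2 n K0 Fy cw Q0 Hv P hi hd hK0 hcw hw2 hn hm hθm hnm hFK hFm hpn hFd hHd hQK hFQ
    hP hPd
  have hθ7 : 10 ^ 6 * θ ≤ 1 / 12 := by rw [← hεθ]; exact hε1
  have hdt : 10 ≤ θ * d := by
    have h : 10 / θ ≤ (d : ℝ) := (Nat.le_ceil _).trans (by exact_mod_cast hd)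
    rw [div_le_iff₀ hθ0] at h
    linarith
  have hd0 : (0 : ℝ) < d := by
    by_contra h
    have h3 : θ * (d : ℝ) ≤ 0 := mul_nonpos_of_nonneg_of_nonpos hθ0.le (not_lt.1 h)
    linarith
  have hθd : 10 ^ 6 * (θ * d) ≤ d / 12 := by
    have := mul_le_mul_of_nonneg_right hθ7 hd0.le
    linarith
  have hm' : (d : ℝ) - θ * d ≤ m := by linarith
  have hw2r : (w2 : ℝ) ≤ 2 := by exact_mod_cast hw2
  have hmr : (m : ℝ) < d := by exact_mod_cast hm
  -- `w` and the requirements of the split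
  set w := ⌈10 ^ 4 * (θ * d)⌉₊ with hw
  have hw1 : 10 ^ 4 * (θ * d) ≤ (w : ℝ) := Nat.le_ceil _
  have hw3 : (w : ℝ) ≤ 10 ^ 4 * (θ * d) + 1 := (Nat.ceil_lt_add_one (by positivity)).le
  have hni : ∀ i, (d : ℝ) / 3 - 2 * (θ * d) ≤ (n i : ℝ) := by
    intro i
    have := (abs_le.1 (hnm i)).1
    linarith
  have hreq : ∀ i j, Hv.card + (P j).card + w ≤ n i := by
    intro i j
    have h3 := hni i
    have h4 := hPd j
    have h5 : π * d = d / 3 - 10 ^ 6 * (θ * d) := by
      have : π = 1 / 3 - 10 ^ 6 * θ := by rw [← hεθ, hε]; ring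
      rw [this]; ring
    have h6 : (Hv.card : ℝ) + (P j).card + w ≤ n i := by linarith
    exact_mod_cast h6
  have hsum : ∀ U : Finset D, U ⊆ K0 \ cw → U.card + (cw ∩ K0).card + m = d + 2 + pn + w2 →
      n 0 + n 1 + n 2 + pn = (K0 \ (U ∪ cw)).card := by
    intro U hU hUc
    have h3 : (K0 \ (U ∪ cw)).card = ((K0 \ cw) \ U).card := by
      congr 1
      ext b
      simp only [mem_sdiff, mem_union]
      tauto
    have h4 : ((K0 \ cw) \ U).card + U.card = (K0 \ cw).card := card_sdiff_add_card_eq_card hU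
    have h5 : (K0 \ cw).card + (cw ∩ K0).card = K0.card := by
      rw [inter_comm]; exact card_sdiff_add_card_inter _ _
    omega
  have hck : (cw ∩ K0).card ≤ w2 := (card_le_card inter_subset_left).trans hcw
  have hUex : ∃ u : ℕ, u + (cw ∩ K0).card + m = d + 2 + pn + w2 ∧ Fy.card ≤ u ∧
      (u : ℝ) ≤ 2 * (θ * d) + 4 := by
    refine ⟨d + 2 + pn + w2 - m - (cw ∩ K0).card, by omega, by omega, ?_⟩
    have h3 : d + 2 + pn + w2 - m - (cw ∩ K0).card + m ≤ d + 2 + pn + w2 := by omega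
    have h4 : ((d + 2 + pn + w2 - m - (cw ∩ K0).card : ℕ) : ℝ) + m ≤ d + 2 + pn + w2 := by
      exact_mod_cast h3
    linarith
  obtain ⟨u, hu, hFu, hur⟩ := hUex
  have hcwr : (cw.card : ℝ) ≤ 2 := by exact_mod_cast hcw.trans hw2
  by_cases hcase : 10 ^ 5 * (θ * d) ≤ ((K0 \ Q0).card : ℝ)
  · -- case A
    have hcard : ∀ A B : Finset D, (A.card : ℝ) - B.card ≤ ((A \ B).card : ℝ) := by
      intro A B
      have h3 : A.card ≤ (A \ B).card + B.card := by
        have := card_le_card_sdiff_add_card (s := A) (t := B)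
        omega
      have h4 : (A.card : ℝ) ≤ (A \ B).card + B.card := by exact_mod_cast h3
      linarith
    have h3 : u - (Fy \ cw).card ≤ (((K0 \ Q0) \ Fy) \ cw).card := by
      have h4 := hcard ((K0 \ Q0) \ Fy) cw
      have h5 := hcard (K0 \ Q0) Fy
      have h6 : (u : ℝ) ≤ (((K0 \ Q0) \ Fy) \ cw).card := by linarith
      have h7 : u ≤ (((K0 \ Q0) \ Fy) \ cw).card := by exact_mod_cast h6
      omega
    obtain ⟨U1, hU1, hU1c⟩ := exists_subset_card_eq h3
    have hU1m : ∀ b ∈ U1, b ∈ K0 ∧ b ∉ Q0 ∧ b ∉ Fy ∧ b ∉ cw := by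
      intro b hb
      have := hU1 hb
      simp only [mem_sdiff] at this
      tauto
    have hFw : (Fy \ cw).card ≤ Fy.card := card_le_card sdiff_subset
    have hUd : Disjoint (Fy \ cw) U1 := by
      rw [Finset.disjoint_left]
      intro b hb hb'
      exact (hU1m b hb').2.2.1 (mem_sdiff.1 hb).1
    have hUc : ((Fy \ cw) ∪ U1).card = u := by
      rw [card_union_of_disjoint hUd, hU1c]; omega
    have hUK : (Fy \ cw) ∪ U1 ⊆ K0 \ cw := by
      intro b hb
      rcases mem_union.1 hb with hb | hb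
      · exact mem_sdiff.2 ⟨hFK (mem_sdiff.1 hb).1, (mem_sdiff.1 hb).2⟩
      · exact mem_sdiff.2 ⟨(hU1m b hb).1, (hU1m b hb).2.2.2⟩
    set U := (Fy \ cw) ∪ U1 with hU
    have hS3 : 3 * w ≤ ((((K0 \ Q0) \ Hv) \ U) \ cw).card := by
      have h4 := hcard ((((K0 \ Q0) \ Hv)) \ U) cw
      have h5 := hcard (((K0 \ Q0) \ Hv)) U
      have h6 := hcard (K0 \ Q0) Hv
      rw [hUc] at h5
      have h7 : 3 * (w : ℝ) ≤ ((((K0 \ Q0) \ Hv) \ U) \ cw).card := by linarith
      exact_mod_cast h7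
    obtain ⟨W, i0, K, k1, k2, k3, k4, k5, k6, k7, k8, k9⟩ := splt n pn w (K0 \ (U ∪ cw))
      ((((K0 \ Q0) \ Hv) \ U) \ cw) Hv P hi
      (by
        intro b hb
        simp only [mem_sdiff, mem_union] at hb ⊢
        tauto) hS3 hP hreq (hsum U hUK (by rw [hUc]; exact hu))
    refine ⟨U, W, i0, K, subset_union_left, k1, k2, k3, k4, k5, ?_, ?_, ?_, ?_⟩
    · intro b hb
      have h4 := k7 hb
      simp only [mem_sdiff] at h4
      exact mem_sdiff.2 ⟨k6 hb, h4.1.1.2⟩
    · have : (w : ℝ) ≤ W.card := by exact_mod_cast k8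
      rw [mul_assoc]
      linarith
    · intro b hb hbU hbc
      apply k9
      simp only [mem_sdiff, mem_union]
      tauto
    · intro Pc hPc hPcc
      have hPm : ∀ b ∈ Pc, b ∈ K0 ∧ b ∉ Q0 ∧ b ∉ U ∧ b ∉ cw := by
        intro b hb
        have h4 := k7 (hPc hb)
        simp only [mem_sdiff] at h4
        exact ⟨h4.1.1.1.1, h4.1.1.1.2, h4.1.2, h4.2⟩
      have hsub : (U1 ∪ Pc) ∪ (Q0 \ (Fy ∪ cw)) ⊆ K0.filter (fun b =>
          (b ∉ Q0 ∧ (b ∈ U ∨ b ∈ Pc ∨ b ∈ cw)) ∨ (b ∈ Q0 ∧ b ∉ U ∧ b ∉ Pc ∧ b ∉ cw)) := by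
        intro b hb
        rw [mem_filter]
        rcases mem_union.1 hb with hb | hb
        · rcases mem_union.1 hb with hb | hb
          · exact ⟨(hU1m b hb).1, Or.inl ⟨(hU1m b hb).2.1, Or.inl (mem_union_right _ hb)⟩⟩
          · exact ⟨(hPm b hb).1, Or.inl ⟨(hPm b hb).2.1, Or.inr (Or.inl hb)⟩⟩
        · simp only [mem_sdiff, mem_union, not_or] at hb
          refine ⟨hQK hb.1, Or.inr ⟨hb.1, ?_, fun h => (hPm b h).2.1 hb.1, hb.2.2⟩⟩
          intro h
          rcases mem_union.1 h with h | h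
          · exact hb.2.1 (mem_sdiff.1 h).1
          · exact (hU1m b h).2.1 hb.1
      have hd1 : Disjoint U1 Pc := by
        rw [Finset.disjoint_left]
        intro b hb hb'
        exact (hPm b hb').2.2.1 (mem_union_right _ hb)
      have hd2 : Disjoint (U1 ∪ Pc) (Q0 \ (Fy ∪ cw)) := by
        rw [Finset.disjoint_left]
        intro b hb hb'
        rcases mem_union.1 hb with hb | hb
        · exact (hU1m b hb).2.1 (mem_sdiff.1 hb').1
        · exact (hPm b hb).2.1 (mem_sdiff.1 hb').1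
      have h4 := card_le_card hsub
      rw [card_union_of_disjoint hd2, card_union_of_disjoint hd1, hU1c, hPcc] at h4
      omega
  · -- case B
    push Not at hcase
    have hKQ : ((K0 \ Q0).card : ℝ) + Q0.card = d + 2 := by
      have h3 : (K0 \ Q0).card + Q0.card = K0.card := card_sdiff_add_card_eq_card hQK
      have h4 : ((K0 \ Q0).card : ℝ) + Q0.card = K0.card := by exact_mod_cast h3
      rw [h4, hK0]; push_cast; ring
    have hKc : (d : ℝ) ≤ (K0 \ cw).card := by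
      have h5 : (K0 \ cw).card + (cw ∩ K0).card = K0.card := by
        rw [inter_comm]; exact card_sdiff_add_card_inter _ _
      have h6 : d ≤ (K0 \ cw).card := by omega
      exact_mod_cast h6
    have hud : u ≤ (K0 \ cw).card := by
      have h3 : (u : ℝ) ≤ (K0 \ cw).card := by linarith
      exact_mod_cast h3
    have hFw : (Fy \ cw).card ≤ Fy.card := card_le_card sdiff_subset
    obtain ⟨U, hU1, hU2, hUc⟩ := exists_subsuperset_card_eq
      (show Fy \ cw ⊆ K0 \ cw from sdiff_subset_sdiff hFK subset_rfl) (hFw.trans hFu) hud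
    have hS3 : 3 * w ≤ ((K0 \ (U ∪ cw)) \ Hv).card := by
      have h3 := hsum U hU2 (by rw [hUc]; exact hu)
      have h4 : (K0 \ (U ∪ cw)).card ≤ ((K0 \ (U ∪ cw)) \ Hv).card + Hv.card := by
        have := card_le_card_sdiff_add_card (s := K0 \ (U ∪ cw)) (t := Hv)
        omega
      have h5 : n 0 ≤ ((K0 \ (U ∪ cw)) \ Hv).card + Hv.card := by omega
      have h6 : (n 0 : ℝ) ≤ ((K0 \ (U ∪ cw)) \ Hv).card + Hv.card := by exact_mod_cast h5
      have h7 := hni 0
      have h8 : 3 * (w : ℝ) ≤ ((K0 \ (U ∪ cw)) \ Hv).card := by linarith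
      exact_mod_cast h8
    obtain ⟨W, i0, K, k1, k2, k3, k4, k5, k6, k7, k8, k9⟩ := splt n pn w (K0 \ (U ∪ cw))
      ((K0 \ (U ∪ cw)) \ Hv) Hv P hi subset_rfl hS3 hP hreq (hsum U hU2 (by rw [hUc]; exact hu))
    refine ⟨U, W, i0, K, hU1, k1, k2, k3, k4, k5, ?_, ?_, ?_, ?_⟩
    · intro b hb
      exact mem_sdiff.2 ⟨k6 hb, (mem_sdiff.1 (k7 hb)).2⟩
    · have : (w : ℝ) ≤ W.card := by exact_mod_cast k8
      rw [mul_assoc]
      linarith
    · intro b hb hbU hbc
      apply k9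
      simp only [mem_sdiff, mem_union]
      tauto
    · intro Pc hPc hPcc
      have hsub : Q0 \ (U ∪ Pc ∪ cw) ⊆ K0.filter (fun b =>
          (b ∉ Q0 ∧ (b ∈ U ∨ b ∈ Pc ∨ b ∈ cw)) ∨ (b ∈ Q0 ∧ b ∉ U ∧ b ∉ Pc ∧ b ∉ cw)) := by
        intro b hb
        simp only [mem_sdiff, mem_union, not_or] at hb
        rw [mem_filter]
        exact ⟨hQK hb.1, Or.inr ⟨hb.1, hb.2.1.1, hb.2.1.2, hb.2.2⟩⟩
      have h4 := card_le_card hsub
      have h5 : Q0.card ≤ (Q0 \ (U ∪ Pc ∪ cw)).card + (U.card + Pc.card + cw.card) := by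
        have h6 := card_le_card_sdiff_add_card (s := Q0) (t := U ∪ Pc ∪ cw)
        have h7 : (U ∪ Pc ∪ cw).card ≤ U.card + Pc.card + cw.card :=
          (card_union_le _ _).trans (Nat.add_le_add_right (card_union_le _ _) _)
        omega
      have h8 : d + 2 + (U.card + Pc.card + cw.card) ≤ m + Q0.card := by
        have h9 : (d : ℝ) + 2 + (U.card + Pc.card + cw.card) ≤ m + Q0.card := by
          rw [hUc, hPcc]
          linarith
        exact_mod_cast h9
      omega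

end Pool.Agent.Work.MP_db9399_sw_helper54
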