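import Pool.Agent.Work.MP_db9399_sw.Ov
import Pool.Agent.Work.MP_db9399_lc_helper99.VCOL
import Pool.Agent.Work.MP_db9399_vt.Tools

/-!
# MP_db9399, PHASE 2: `Stmt_EXTC` from `vt.Stmt_SPVE` (helper54)
-/

set_option autoImplicit false

namespace Pool.Agent.Work.MP_db9399_sw.helper54

open Finset Classical
open Pool.Agent.Work.MP_db9399_all (nb mis)
open Pool.Agent.Work.MP_db9399_px (ee)
open Pool.Agent.Work.MP_db9399_bg (den cl LabP mem_cl mem_nb)
open Pool.Agent.Work.MP_db9399_lc (BL)
open Pool.Agent.Work.MP_db9399_lc.helper99.VCOL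
open Pool.Agent.Work.MP_db9399_vt (Chk)
open Pool.Agent.Work.MP_db9399_sw

universe u

/-- the free vertices, greedily -/
theorem greedyFr {V : Type u} [Fintype V] {Q C T : Type} (G : SimpleGraph V) (d N : ℕ)
    (UH Fr Wg : Finset V) (lab : V → T) (fq : T → Q) (P : Q → Finset C) (c : V → C)
    (hd : 8 * N < d) (hP : ∀ q, 3 * d ≤ 4 * (N * (P q).card))
    (hPd : ∀ q q', q ≠ q' → Disjoint (P q) (P q')) (hUF : Disjoint UH Fr)
    (hU2 : ∀ v, (nb G v ∩ UH).card ≤ 2)
    (hFr : ∀ s ∈ Fr, ∀ q,
      2 * (N * ((nb G s \ Wg).filter (fun v => fq (lab v) = q)).card) ≤ d)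
    (hc : ∀ v, v ∉ UH → v ∉ Fr → v ∉ Wg → c v ∈ P (fq (lab v)))
    (hcc : ∀ v w, v ∉ Fr → v ∉ Wg → w ∉ Fr → w ∉ Wg → G.Adj v w → c v ≠ c w) :
    ∀ S : Finset V, S ⊆ Fr → ∃ c1 : V → C, (∀ v, v ∉ S → c1 v = c v) ∧
      (∀ v ∈ S, c1 v ∈ P (fq (lab v))) ∧
      ∀ v w, (v ∈ Fr → v ∈ S) → v ∉ Wg → (w ∈ Fr → w ∈ S) → w ∉ Wg → G.Adj v w →
        c1 v ≠ c1 w := by
  intro S
  induction S using Finset.induction_on with
  | empty =>
    intro _
    refine ⟨c, fun v _ => rfl, fun v hv => absurd hv (notMem_empty _), ?_⟩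
    intro v w hv hvW hw hwW ha
    exact hcc v w (fun h => notMem_empty _ (hv h)) hvW (fun h => notMem_empty _ (hw h)) hwW ha
  | insert s S hsS ih =>
    intro hSF
    obtain ⟨c1, h1, h2, h3⟩ := ih ((subset_insert _ _).trans hSF)
    have hsF : s ∈ Fr := hSF (mem_insert_self _ _)
    have hsU : s ∉ UH := fun h => Finset.disjoint_left.1 hUF h hsF
    set q := fq (lab s) with hq
    set Fb : Finset C := ((nb G s \ Wg).filter (fun v => fq (lab v) = q)).image c1 ∪
      (nb G s ∩ UH).image c1 with hFb
    have hFc : Fb.card < (P q).card := by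
      have e1 : Fb.card ≤ ((nb G s \ Wg).filter (fun v => fq (lab v) = q)).card + 2 := by
        refine (card_union_le _ _).trans (Nat.add_le_add card_image_le ?_)
        exact card_image_le.trans (hU2 s)
      have e2 := hFr s hsF q
      have e3 := hP q
      by_contra hcon
      push Not at hcon
      have e4 : (P q).card ≤ ((nb G s \ Wg).filter (fun v => fq (lab v) = q)).card + 2 := by omega
      have e5 : N * (P q).card ≤ N * ((nb G s \ Wg).filter (fun v => fq (lab v) = q)).card + N * 2 := by
        rw [← Nat.mul_add]; exact Nat.mul_le_mul_left N e4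
      omega
    obtain ⟨b, hb, hbF⟩ := exists_mem_notMem_of_card_lt_card hFc
    have key : ∀ w, G.Adj s w → w ∉ Wg → (w ∈ Fr → w ∈ insert s S) → b ≠ c1 w := by
      intro w ha hwW hwF hbw
      have hws : w ≠ s := fun h => by rw [h] at ha; exact G.loopless.irrefl _ ha
      by_cases hwU : w ∈ UH
      · apply hbF
        rw [hFb, mem_union]
        exact Or.inr (mem_image.2 ⟨w, mem_inter.2 ⟨mem_nb.2 ha, hwU⟩, hbw.symm⟩)
      by_cases hwq : fq (lab w) = q
      · apply hbF
        rw [hFb, mem_union]
        exact Or.inl (mem_image.2 ⟨w, mem_filter.2 ⟨mem_sdiff.2 ⟨mem_nb.2 ha, hwW⟩, hwq⟩,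
          hbw.symm⟩)
      have hwP : c1 w ∈ P (fq (lab w)) := by
        by_cases hwFr : w ∈ Fr
        · exact h2 w ((mem_insert.1 (hwF hwFr)).resolve_left hws)
        · have hwS : w ∉ S := fun h => hwFr (hSF (mem_insert_of_mem h))
          rw [h1 w hwS]
          exact hc w hwU hwFr hwW
      rw [← hbw] at hwP
      exact Finset.disjoint_left.1 (hPd _ _ hwq) hwP hb
    refine ⟨Function.update c1 s b, ?_, ?_, ?_⟩
    · intro v hv
      have hvs : v ≠ s := fun h => hv (by rw [h]; exact mem_insert_self _ _)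
      rw [Function.update_of_ne hvs]
      exact h1 v (fun h => hv (mem_insert_of_mem h))
    · intro v hv
      by_cases hvs : v = s
      · subst hvs
        rw [Function.update_self]
        exact hb
      · rw [Function.update_of_ne hvs]
        exact h2 v ((mem_insert.1 hv).resolve_left hvs)
    · intro v w hv hvW hw hwW ha
      by_cases hvs : v = s
      · subst hvs
        have hws : w ≠ v := fun h => by rw [h] at ha; exact G.loopless.irrefl _ ha
        rw [Function.update_self, Function.update_of_ne hws]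
        exact key w ha hwW hw
      · by_cases hws : w = s
        · subst hws
          rw [Function.update_self, Function.update_of_ne hvs]
          exact (key v ha.symm hvW hv).symm
        · rw [Function.update_of_ne hvs, Function.update_of_ne hws]
          exact h3 v w (fun h => (mem_insert.1 (hv h)).resolve_left hvs) hvW
            (fun h => (mem_insert.1 (hw h)).resolve_left hws) hwW ha

/-- `G` restricted to the gadgets of one class -/
def Hq {V : Type u} (G : SimpleGraph V) (X : Finset V) : SimpleGraph V where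
  Adj v w := G.Adj v w ∧ v ∈ X ∧ w ∈ X
  symm := ⟨fun _ _ h => ⟨h.1.symm, h.2.2, h.2.1⟩⟩
  loopless := ⟨fun v h => G.loopless.irrefl v h.1⟩

theorem stmt_EXTC (hS : Pool.Agent.Work.MP_db9399_vt.Stmt_SPVE.{u}) : Stmt_EXTC.{u} := by
  obtain ⟨κ1, hκ1, hκ11, hS⟩ := hS
  intro g hg hg1
  obtain ⟨κ', Δ0, hκ', hκ'1, hS⟩ := hS (g / 3) (by positivity)
  refine ⟨κ' / 2, by positivity, by linarith, ?_⟩
  intro N hN
  have hNR : (1 : ℝ) ≤ N := by exact_mod_cast hN
  set p : ℝ := 1 / (N : ℝ) with hp
  have hp0 : 0 < p := by positivity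
  have hp1 : p ≤ 1 := by
    rw [hp, div_le_one (by positivity)]; exact hNR
  have hpN : p * N = 1 := by rw [hp]; field_simp
  set σ : ℝ := min (p ^ 2 * g / 20) (κ' * p / 8) with hσ
  have hσ0 : 0 < σ := lt_min (by positivity) (by positivity)
  have hσ1 : σ ≤ p ^ 2 * g / 20 := min_le_left _ _
  have hσ2 : σ ≤ κ' * p / 8 := min_le_right _ _
  refine ⟨σ, g / 20, ⌈120 / (g * p ^ 2) + 100 / p + Δ0 / p + 8 / (κ' * p)⌉₊, hσ0, by positivity, ?_⟩
  intro V _ T Q C _ _ G d c1 UH Fr Wg lab fq P c hd hBL hLab hQ hden hPl hPu hPd hFW hUFW hU2 hW1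
    hFr hc hcc
  have hdR : 120 / (g * p ^ 2) + 100 / p + Δ0 / p + 8 / (κ' * p) ≤ d := by
    refine (Nat.le_ceil _).trans ?_
    exact_mod_cast hd
  have q1 : 0 < 120 / (g * p ^ 2) := by positivity
  have q2 : 0 < 100 / p := by positivity
  have q3 : 0 ≤ (Δ0 : ℝ) / p := by positivity
  have q4 : 0 < 8 / (κ' * p) := by positivity
  have d1 : 120 / (g * p ^ 2) ≤ d := by linarith
  have d2 : 100 / p ≤ d := by linarith
  have d2' : 100 ≤ d * p := by rwa [div_le_iff₀ hp0] at d2
  have d3 : (Δ0 : ℝ) ≤ d * p := by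
    have : (Δ0 : ℝ) / p ≤ d := by linarith
    rwa [div_le_iff₀ hp0] at this
  have d4 : 8 ≤ d * (κ' * p) := by
    have : 8 / (κ' * p) ≤ d := by linarith
    rwa [div_le_iff₀ (by positivity)] at this
  have hdnn : (0 : ℝ) ≤ d := Nat.cast_nonneg _
  have hd100 : 100 * (N : ℝ) ≤ d := by
    have h1 : 100 * (N : ℝ) ≤ d * p * N := mul_le_mul_of_nonneg_right d2' (by positivity)
    have h2 : (d : ℝ) * p * N = d := by rw [mul_assoc, hpN, mul_one]
    linarith
  have hd100' : 100 * N ≤ d := by exact_mod_cast hd100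
  -- the free vertices
  have hUF : Disjoint UH Fr := disjoint_of_subset_right subset_union_left hUFW
  have hUW : Disjoint UH Wg := disjoint_of_subset_right subset_union_right hUFW
  obtain ⟨c2, a1, a2, a3⟩ := greedyFr G d N UH Fr Wg lab fq P c (by omega)
    (by
      intro q
      have h1 := hPl q
      have h2 : κ' / 2 * (d : ℝ) ≤ 1 / 32 * d := mul_le_mul_of_nonneg_right (by linarith) hdnn
      have h3 : (3 : ℝ) * d ≤ 4 * (N * (P q).card) := by linarith
      exact_mod_cast h3) hPd hUF hU2 hFr hc hcc Fr subset_rfl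
  have b1 : ∀ v, v ∉ UH → v ∉ Wg → c2 v ∈ P (fq (lab v)) := by
    intro v hvU hvW
    by_cases hvF : v ∈ Fr
    · exact a2 v hvF
    · rw [a1 v hvF]; exact hc v hvU hvF hvW
  have b2 : ∀ v w, v ∉ Wg → w ∉ Wg → G.Adj v w → c2 v ≠ c2 w := fun v w hv hw ha =>
    a3 v w (fun h => h) hv (fun h => h) hw ha
  -- the gadgets
  set Δ : ℕ := ⌈(p + σ) * d⌉₊ with hΔ
  have hΔ1 : (p + σ) * d ≤ Δ := Nat.le_ceil _
  have hΔ2 : (Δ : ℝ) ≤ (p + σ) * d + 1 := (Nat.ceil_lt_add_one (by positivity)).le
  have hpd : p * d ≤ Δ := by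
    have : 0 ≤ σ * d := by positivity
    linarith
  have hpd' : d * p ≤ Δ := by rw [mul_comm]; exact hpd
  have hΔ3 : Δ0 ≤ Δ := by
    have : (Δ0 : ℝ) ≤ Δ := d3.trans hpd'
    exact_mod_cast this
  have hκΔ : 1 ≤ κ' * Δ := by
    have h1 : κ' * (d * p) ≤ κ' * Δ := mul_le_mul_of_nonneg_left hpd' hκ'.le
    have h2 : (d : ℝ) * (κ' * p) = κ' * (d * p) := by ring
    linarith
  set cg : Q → Finset V := fun q => Wg.filter (fun x => fq (lab x) = q) with hcg
  have mcg : ∀ q x, x ∈ cg q ↔ x ∈ Wg ∧ fq (lab x) = q := fun q x => by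
    simp only [hcg, mem_filter]
  have hclq : ∀ v q, v ∈ cl lab (univ.filter (fun t => fq t = q)) ↔ fq (lab v) = q := by
    intro v q
    rw [mem_cl, mem_filter]; simp
  have hBup : ∀ v q, ((nb G v ∩ cl lab (univ.filter (fun t => fq t = q))).card : ℝ) ≤
      (p + σ) * d := by
    intro v q
    have h1 := (abs_le.mp (hLab.deg v (univ.filter (fun t => fq t = q)))).2
    rw [hden] at h1
    have hdeg : ((nb G v).card : ℝ) ≤ d := by exact_mod_cast hBL.deg v
    have h2 := mul_le_mul_of_nonneg_left hdeg hp0.le
    linarith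
  have hsub : ∀ v q, nb (Hq G (cg q)) v ⊆ nb G v ∩ cl lab (univ.filter (fun t => fq t = q)) := by
    intro v q w hw
    rw [mem_nb] at hw
    rw [mem_inter, mem_nb, hclq]
    exact ⟨hw.1, ((mcg q w).1 hw.2.2).2⟩
  have hex : ∀ q, ∃ c' : V → C, (∀ v, c' v ∈ P q ∧
      c' v ∉ (if v ∈ cg q then (nb G v \ Wg).image c2 else ∅)) ∧
      ∀ v w, (Hq G (cg q)).Adj v w → c' v ≠ c' w := by
    intro q
    have hPl' : (1 - κ' / 2) * (p * d) ≤ ((P q).card : ℝ) := by
      have h1 := mul_le_mul_of_nonneg_left (hPl q) hp0.le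
      have h2 : p * (N * ((P q).card : ℝ)) = (P q).card := by rw [← mul_assoc, hpN, one_mul]
      rw [h2] at h1
      have h3 : p * ((1 - κ' / 2) * d) = (1 - κ' / 2) * (p * d) := by ring
      rw [h3] at h1
      exact h1
    have hPu' : 2 * ((P q).card : ℝ) ≤ 3 * (p * d) := by
      have h0 : (2 : ℝ) * (N * (P q).card) ≤ 3 * d := by exact_mod_cast hPu q
      have h1 := mul_le_mul_of_nonneg_left h0 hp0.le
      have h2 : p * (2 * (N * ((P q).card : ℝ))) = 2 * (P q).card := by
        have : p * (2 * (N * ((P q).card : ℝ))) = (p * N) * (2 * (P q).card) := by ring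
        rw [this, hpN, one_mul]
      rw [h2] at h1
      linarith
    obtain ⟨c', e1, e2, _⟩ := hS (Hq G (cg q)) Δ C (P q)
      (fun v => if v ∈ cg q then (nb G v \ Wg).image c2 else ∅) PEmpty.{u + 1} (fun i => i.elim)
      hΔ3
      (by
        intro v
        have h1 : ((nb (Hq G (cg q)) v).card : ℝ) ≤ Δ := by
          have h2 : ((nb (Hq G (cg q)) v).card : ℝ) ≤
              (nb G v ∩ cl lab (univ.filter (fun t => fq t = q))).card := by
            exact_mod_cast card_le_card (hsub v q)
          exact h2.trans ((hBup v q).trans hΔ1)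
        exact_mod_cast h1)
      (by
        refine le_trans ?_ hPl'
        have h7 : σ * d ≤ κ' * p / 8 * d := mul_le_mul_of_nonneg_right hσ2 hdnn
        have h8 : (1 - κ') * Δ ≤ (1 - κ') * ((p + σ) * d + 1) :=
          mul_le_mul_of_nonneg_left hΔ2 (by linarith)
        have h9 : σ * d + 1 ≤ κ' * p * d / 2 := by
          have : κ' * p * d = d * (κ' * p) := by ring
          linarith
        have h10 : (1 - κ') * (σ * d + 1) ≤ 1 * (σ * d + 1) :=
          mul_le_mul_of_nonneg_right (by linarith) (by positivity)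
        have h11 : (1 - κ') * ((p + σ) * d + 1) = (1 - κ') * (p * d) + (1 - κ') * (σ * d + 1) := by
          ring
        have h12 : (1 - κ' / 2) * (p * d) = (1 - κ') * (p * d) + κ' * p * d / 2 := by ring
        linarith)
      (by
        have h1 : ((P q).card : ℝ) ≤ 2 * Δ := by linarith
        exact_mod_cast h1)
      (by
        intro v
        by_cases hv : v ∈ cg q
        · have h1 : ((nb G v \ Wg).image c2).card ≤ 1 :=
            card_image_le.trans (hW1 v ((mcg q v).1 hv).1)
          have h2 : (100 : ℝ) ≤ Δ := d2'.trans hpd'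
          have h3 : 100 ≤ Δ := by exact_mod_cast h2
          simp only [hv, if_true]
          omega
        · simp only [hv, if_false, card_empty]
          omega)
      (by
        intro v
        by_cases hv : v ∈ cg q
        · left
          simp only [hv, if_true]
          have hvW := ((mcg q v).1 hv).1
          have h1 : ((nb G v \ Wg).image c2).card ≤ 1 := card_image_le.trans (hW1 v hvW)
          refine ⟨?_, ?_⟩
          · -- the local sparsity
            set A := nb (Hq G (cg q)) v with hA
            set B := nb G v ∩ cl lab (univ.filter (fun t => fq t = q)) with hB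
            have hBA : B.card ≤ A.card + 1 := by
              have h2 : B ⊆ A ∪ (nb G v \ Wg) := by
                intro w hw
                rw [hB, mem_inter, hclq, mem_nb] at hw
                rw [mem_union]
                by_cases hwW : w ∈ Wg
                · left
                  rw [hA, mem_nb]
                  exact ⟨hw.1, hv, (mcg q w).2 ⟨hwW, hw.2⟩⟩
                · exact Or.inr (mem_sdiff.2 ⟨mem_nb.2 hw.1, hwW⟩)
              have h3 := (card_le_card h2).trans (card_union_le _ _)
              have h4 := hW1 v hvW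
              omega
            have hlow : (p * (1 - g / 20) - σ) * d - 2 ≤ (A.card : ℝ) := by
              have h2 := (abs_le.mp (hLab.deg v (univ.filter (fun t => fq t = q)))).1
              rw [hden, ← hB] at h2
              have h3 := mul_le_mul_of_nonneg_left (hBL.low v) hp0.le
              have h4 : (B.card : ℝ) ≤ A.card + 1 := by exact_mod_cast hBA
              have h5 : (p * (1 - g / 20) - σ) * d = p * ((1 - g / 20) * d) - σ * d := by ring
              rw [h5]
              linarith
            have hsps := hLab.sps v (univ.filter (fun t => fq t = q))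
            rw [hden, ← hB] at hsps
            have h6 := num (g := g) (p := p) (σ := σ) (ε0 := g / 20) (D := (d : ℝ))
              (a := (A.card : ℝ)) (B := (B.card : ℝ)) (E := ee G A A)
              (M := ((mis G A).card : ℝ)) hg hg1 hp0 hp1 hσ0.le hσ1 (by positivity) le_rfl d1 d2
              hlow (by exact_mod_cast card_le_card (hsub v q)) (hBup v q)
              ((ee_mono G (hsub v q)).trans (hsps.trans (by
                have h7 := ee_nb hg hBL (by linarith) v
                have h8 := mul_le_mul_of_nonneg_left h7 (sq_nonneg p)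
                linarith))) (mis_ge G A)
            have h7 : (mis G A).card ≤ (mis (Hq G (cg q)) A).card := by
              apply card_le_card
              rintro ⟨a, b⟩ hab
              unfold mis at hab ⊢
              obtain ⟨m1, m2, m3⟩ := mem_filter.1 hab
              exact mem_filter.2 ⟨m1, m2, fun h => m3 h.1⟩
            have h8 : ((mis G A).card : ℝ) ≤ (mis (Hq G (cg q)) A).card := by exact_mod_cast h7
            have h9 : g / 3 * (Δ : ℝ) ^ 2 ≤ g / 3 * ((p + σ) * d + 1) ^ 2 :=
              mul_le_mul_of_nonneg_left (pow_le_pow_left₀ (Nat.cast_nonneg _) hΔ2 2) (by positivity)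
            linarith
          · have h2 : (((nb G v \ Wg).image c2).card : ℝ) ≤ 1 := by exact_mod_cast h1
            linarith
        · right
          simp only [hv, if_false, card_empty]
          have h1 : nb (Hq G (cg q)) v = ∅ := by
            apply eq_empty_of_forall_notMem
            intro w hw
            rw [mem_nb] at hw
            exact hv hw.2.1
          rw [h1, card_empty]
          have h2 : (0 : ℝ) < (P q).card := by
            refine lt_of_lt_of_le ?_ hPl'
            have : 0 < p * d := by rw [mul_comm]; linarith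
            have h3 : 0 < 1 - κ' / 2 := by linarith
            positivity
          have h3 : 0 < (P q).card := by exact_mod_cast h2
          omega)
      ⟨fun i => i.elim, fun i => i.elim, fun w => by simp⟩
    exact ⟨c', e1, e2⟩
  choose cq hcq1 hcq2 using hex
  refine ⟨fun v => if v ∈ Wg then cq (fq (lab v)) v else c2 v, ?_, ?_, ?_⟩
  · intro v hvF hvW
    simp only [if_neg hvW]
    exact a1 v hvF
  · intro v hvU
    by_cases hvW : v ∈ Wg
    · simp only [if_pos hvW]
      exact (hcq1 _ v).1
    · simp only [if_neg hvW]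
      exact b1 v hvU hvW
  · have hmix : ∀ v w, v ∈ Wg → w ∉ Wg → G.Adj v w → cq (fq (lab v)) v ≠ c2 w := by
      intro v w hv hw ha he
      have h1 := (hcq1 (fq (lab v)) v).2
      have h2 : v ∈ cg (fq (lab v)) := (mcg _ _).2 ⟨hv, rfl⟩
      rw [if_pos h2] at h1
      apply h1
      rw [he]
      exact mem_image_of_mem _ (mem_sdiff.2 ⟨mem_nb.2 ha, hw⟩)
    intro v w ha
    by_cases hv : v ∈ Wg
    · by_cases hw : w ∈ Wg
      · simp only [if_pos hv, if_pos hw]
        by_cases hq : fq (lab v) = fq (lab w)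
        · rw [← hq]
          exact hcq2 _ v w ⟨ha, (mcg _ _).2 ⟨hv, rfl⟩, (mcg _ _).2 ⟨hw, hq.symm⟩⟩
        · intro he
          have h1 := (hcq1 (fq (lab v)) v).1
          have h2 := (hcq1 (fq (lab w)) w).1
          rw [he] at h1
          exact Finset.disjoint_left.1 (hPd _ _ hq) h1 h2
      · simp only [if_pos hv, if_neg hw]
        exact hmix v w hv hw ha
    · by_cases hw : w ∈ Wg
      · simp only [if_neg hv, if_pos hw]
        exact (hmix w v hw hv ha.symm).symm
      · simp only [if_neg hv, if_neg hw]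
        exact b2 v w hv hw ha

end Pool.Agent.Work.MP_db9399_sw.helper54
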