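import Pool.Agent.Work.MP_db9399_sw.Short

/-!
# MP_db9399, PHASE 2: `Stmt_VMIX` from `Stmt_VSHORT` and `sl.Stmt_VSEQ` (helper54)
-/

set_option autoImplicit false

namespace Pool.Agent.Work.MP_db9399_sw_helper54

open Finset Classical
open Pool.Agent.Work.MP_db9399_sw
open Pool.Agent.Work.MP_db9399_all (nb)
open Pool.Agent.Work.MP_db9399_dn (IsMat Tot)
open Pool.Agent.Work.MP_db9399_bg (HPre)
open Pool.Agent.Work.MP_db9399_sl (InS Same Gout Gss Gin Gex Out Vert odd)

universe u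

variable {V : Type u}

/-- `G` without the edges inside the spots of `Sh` which are not in `EH` -/
def Gq (G EH : SimpleGraph V) (Sh : Finset (Finset V)) : SimpleGraph V where
  Adj v w := G.Adj v w ∧ (Same Sh v w → EH.Adj v w)
  symm := ⟨fun _ _ h => ⟨h.1.symm, fun ⟨Y, hY, h1, h2⟩ => (h.2 ⟨Y, hY, h2, h1⟩).symm⟩⟩
  loopless := ⟨fun v h => G.loopless.irrefl v h.1⟩

/-- the long spots -/
noncomputable def lgs (d : ℕ) (Ys : Finset (Finset V)) : Finset (Finset V) :=
  Ys.filter (fun Y => ¬ Y.card < d)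

theorem mem_shs {V : Type u} {d : ℕ} {Ys : Finset (Finset V)} {Y : Finset V} :
    Y ∈ shs d Ys ↔ Y ∈ Ys ∧ Y.card < d := by
  unfold shs; rw [mem_filter]

theorem mem_lgs {d : ℕ} {Ys : Finset (Finset V)} {Y : Finset V} :
    Y ∈ lgs d Ys ↔ Y ∈ Ys ∧ ¬ Y.card < d := by
  unfold lgs; rw [mem_filter]

theorem InS_cases {d : ℕ} {Ys : Finset (Finset V)} {v : V} (h : InS Ys v) :
    InS (shs d Ys) v ∨ InS (lgs d Ys) v := by
  obtain ⟨Y, hY, hv⟩ := h
  by_cases hc : Y.card < d
  · exact Or.inl ⟨Y, mem_shs.2 ⟨hY, hc⟩, hv⟩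
  · exact Or.inr ⟨Y, mem_lgs.2 ⟨hY, hc⟩, hv⟩

theorem InS_sh {d : ℕ} {Ys : Finset (Finset V)} {v : V} (h : InS (shs d Ys) v) : InS Ys v := by
  obtain ⟨Y, hY, hv⟩ := h
  exact ⟨Y, (mem_shs.1 hY).1, hv⟩

theorem InS_lg {d : ℕ} {Ys : Finset (Finset V)} {v : V} (h : InS (lgs d Ys) v) : InS Ys v := by
  obtain ⟨Y, hY, hv⟩ := h
  exact ⟨Y, (mem_lgs.1 hY).1, hv⟩

theorem InS_not {d : ℕ} {Ys : Finset (Finset V)}
    (dis : ∀ Y ∈ Ys, ∀ Y' ∈ Ys, Y ≠ Y' → Disjoint Y Y') {v : V} (h : InS (lgs d Ys) v) :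
    ¬ InS (shs d Ys) v := by
  rintro ⟨Y', hY', hv'⟩
  obtain ⟨Y, hY, hv⟩ := h
  have h1 := mem_lgs.1 hY
  have h2 := mem_shs.1 hY'
  have hne : Y ≠ Y' := by
    rintro rfl
    exact h1.2 h2.2
  exact Finset.disjoint_left.1 (dis Y h1.1 Y' h2.1 hne) hv hv'

theorem Same_sh {d : ℕ} {Ys : Finset (Finset V)} {v w : V} (h : Same (shs d Ys) v w) :
    Same Ys v w := by
  obtain ⟨Y, hY, hv⟩ := h
  exact ⟨Y, (mem_shs.1 hY).1, hv⟩

theorem Same_cases {d : ℕ} {Ys : Finset (Finset V)} {v w : V} (h : Same Ys v w) :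
    Same (shs d Ys) v w ∨ Same (lgs d Ys) v w := by
  obtain ⟨Y, hY, hv⟩ := h
  by_cases hc : Y.card < d
  · exact Or.inl ⟨Y, mem_shs.2 ⟨hY, hc⟩, hv⟩
  · exact Or.inr ⟨Y, mem_lgs.2 ⟨hY, hc⟩, hv⟩

/-- edges of the outer graph of `Gq` are outer edges or edges of `EH` -/
theorem Gex_q {G EH : SimpleGraph V} {d : ℕ} {Ys : Finset (Finset V)} {v w : V}
    (h : (Gex (Gq G EH (shs d Ys)) (lgs d Ys)).Adj v w) :
    (Gex G Ys).Adj v w ∨ EH.Adj v w := by
  by_cases he : EH.Adj v w
  · exact Or.inr he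
  · refine Or.inl ⟨h.1.1, ?_⟩
    intro hs
    rcases Same_cases (d := d) hs with h1 | h1
    · exact he (h.1.2 h1)
    · exact h.2 h1

variable [Fintype V]

theorem mem_nb' {G : SimpleGraph V} {v w : V} : w ∈ nb G v ↔ G.Adj v w := by
  unfold nb; simp

theorem nb_q {G EH : SimpleGraph V} {d : ℕ} {Ys : Finset (Finset V)}
    (dis : ∀ Y ∈ Ys, ∀ Y' ∈ Ys, Y ≠ Y' → Disjoint Y Y') {v : V} (h : InS (lgs d Ys) v) :
    nb (Gq G EH (shs d Ys)) v = nb G v := by
  ext w
  rw [mem_nb', mem_nb']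
  constructor
  · exact fun h1 => h1.1
  · intro h1
    refine ⟨h1, fun hs => ?_⟩
    exfalso
    obtain ⟨Y, hY, h2, h3⟩ := hs
    exact InS_not dis h ⟨Y, hY, h2⟩

theorem nb_in_q {G EH : SimpleGraph V} {d : ℕ} {Ys : Finset (Finset V)}
    (dis : ∀ Y ∈ Ys, ∀ Y' ∈ Ys, Y ≠ Y' → Disjoint Y Y') {v : V} (h : InS (lgs d Ys) v) :
    nb (Gin (Gq G EH (shs d Ys)) EH (lgs d Ys)) v = nb (Gin G EH Ys) v := by
  ext w
  rw [mem_nb', mem_nb']
  constructor
  · intro h1
    obtain ⟨Y, hY, h2⟩ := h1.2.1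
    exact ⟨h1.1.1, ⟨Y, (mem_lgs.1 hY).1, h2⟩, h1.2.2⟩
  · intro h1
    refine ⟨⟨h1.1, fun hs => ?_⟩, ?_, h1.2.2⟩
    · exfalso
      obtain ⟨Y, hY, h2, h3⟩ := hs
      exact InS_not dis h ⟨Y, hY, h2⟩
    · rcases Same_cases (d := d) h1.2.1 with h2 | h2
      · exfalso
        obtain ⟨Y, hY, h2, h3⟩ := h2
        exact InS_not dis h ⟨Y, hY, h2⟩
      · exact h2

omit [Fintype V] in
/-- `odd` only depends on the sets of the vertices of `Y` -/
theorem odd_congr {K : Type} (Y : Finset V) (F F' : V → Finset K) (K0 : Finset K)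
    (h : ∀ v ∈ Y, F v = F' v) : odd Y F K0 = odd Y F' K0 := by
  unfold odd
  apply filter_congr
  intro b _
  have : Y.filter (fun v => b ∉ F v) = Y.filter (fun v => b ∉ F' v) := by
    apply filter_congr
    intro v hv
    rw [h v hv]
  rw [this]

theorem Out.mono {k : ℕ} {δ δ' π : ℝ} {G Gx Gr EH : SimpleGraph V} {d : ℕ}
    {Ys : Finset (Finset V)} {UH : Finset V} {c0 tu : V → Fin k} {c : V → Fin k}
    {t : V → V → Fin k} {E : V → Finset (Fin k)} {K0 : Finset (Fin k)}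
    {C : Fin 3 → Finset (Fin k)} {p : V → Fin 3} {a : V → Bool} {Z : Finset V} (hδ : δ ≤ δ')
    (h : Out δ π G Gx Gr EH d Ys UH c0 tu c t E K0 C p a Z) :
    Out δ' π G Gx Gr EH d Ys UH c0 tu c t E K0 C p a Z := by
  have h1 : δ * (d : ℝ) ≤ δ' * d := mul_le_mul_of_nonneg_right hδ (Nat.cast_nonneg _)
  exact {
    K0c := h.K0c, cU := h.cU, cK := h.cK, cc := h.cc, ts := h.ts, te := h.te, tK := h.tK,
    tc := h.tc, ti := h.ti, Et := h.Et, EK := h.EK, EU := h.EU, Ed := h.Ed, CK := h.CK,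
    Cc := h.Cc, Cd := h.Cd, UZ := h.UZ, av := h.av
    ZY := fun Y hY => (h.ZY Y hY).trans h1
    cell := fun Y hY i l => (h.cell Y hY i l).trans h1
    ld := fun Y hY b => (h.ld Y hY b).trans h1 }

theorem SHH.mono {k : ℕ} {x η θ θ' T0 y0 y1 B : ℝ} {G EH : SimpleGraph V} {d : ℕ}
    {Ys Sm : Finset (Finset V)} {UH Gd Hs : Finset V} {c0 c : V → Fin k}
    {E F0 : V → Finset (Fin k)} {K0 : Finset (Fin k)} {Fy : Finset V → Finset (Fin k)}
    {Mt : SimpleGraph V} {pn : Finset V → ℕ} (hθ : θ ≤ θ')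
    (h : SHH x η θ T0 y0 y1 B G EH d Ys Sm UH Gd Hs c0 c E F0 K0 Fy Mt pn) :
    SHH x η θ' T0 y0 y1 B G EH d Ys Sm UH Gd Hs c0 c E F0 K0 Fy Mt pn := by
  have h1 : (1 - θ') * (d : ℝ) ≤ (1 - θ) * d :=
    mul_le_mul_of_nonneg_right (by linarith) (Nat.cast_nonneg _)
  exact { h with
    low := fun Y hY => h1.trans (h.low Y hY)
    inn := fun Y hY v hv => h1.trans (h.inn Y hY v hv) }

theorem HPre_q {k : ℕ} {G EH : SimpleGraph V} {UH : Finset V} {c0 tu : V → Fin k}
    {Sh : Finset (Finset V)} (h : HPre G UH c0 EH tu) : HPre (Gq G EH Sh) UH c0 EH tu where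
  EG := fun _ _ he => ⟨h.EG he, fun _ => he⟩
  mat := h.mat
  EU := h.EU
  cov := h.cov
  ind := fun u hu u' hu' ha => h.ind u hu u' hu' ha.1
  far := fun v u hu u' hu' ha ha' => h.far v u hu u' hu' ha.1 ha'.1
  cc := h.cc
  ct := h.ct
  tt := h.tt

/-- the hypotheses of VSEQ for the long spots -/
theorem Out_q {k : ℕ} {δ π : ℝ} {G EH : SimpleGraph V} {d : ℕ} {Ys : Finset (Finset V)}
    {UH : Finset V} {c0 tu : V → Fin k} {c c' : V → Fin k} {t : V → V → Fin k}
    {E : V → Finset (Fin k)} {K0 : Finset (Fin k)} {C : Fin 3 → Finset (Fin k)} {p : V → Fin 3}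
    {a : V → Bool} {Z : Finset V}
    (dis : ∀ Y ∈ Ys, ∀ Y' ∈ Ys, Y ≠ Y' → Disjoint Y Y')
    (hH : HPre G UH c0 EH tu)
    (h : Out δ π G (Gex G Ys) ⊥ EH d Ys UH c0 tu c t E K0 C p a Z)
    (hc1 : ∀ v, (InS (shs d Ys) v → v ∈ UH) → c' v = c v)
    (hc2 : ∀ v, InS (shs d Ys) v → v ∉ UH → c' v ∈ K0 ∧ c' v ∉ E v)
    (hc3 : ∀ v w, G.Adj v w → (InS Ys v → InS (shs d Ys) v ∨ v ∈ UH) →
      (InS Ys w → InS (shs d Ys) w ∨ w ∈ UH) → c' v ≠ c' w) :
    Out δ π (Gq G EH (shs d Ys)) (Gex (Gq G EH (shs d Ys)) (lgs d Ys)) ⊥ EH d (lgs d Ys) UH c0 tu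
      c' t E K0 C p a Z where
  K0c := h.K0c
  cU := fun v hv => by rw [hc1 v (fun _ => hv)]; exact h.cU v hv
  cK := fun v hv => by
    by_cases hs : InS (shs d Ys) v
    · exact (hc2 v hs hv).1
    · rw [hc1 v (fun h => absurd h hs)]; exact h.cK v hv
  cc := fun v w ha h1 h2 => by
    apply hc3 v w ha.1
    · intro hi
      rcases InS_cases (d := d) hi with h3 | h3
      · exact Or.inl h3
      · exact Or.inr (h1 h3)
    · intro hi
      rcases InS_cases (d := d) hi with h3 | h3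
      · exact Or.inl h3
      · exact Or.inr (h2 h3)
  ts := h.ts
  te := h.te
  tK := fun v w ha he => by
    rcases Gex_q ha with h1 | h1
    · exact h.tK v w h1 he
    · exact absurd h1 he
  tc := fun v w ha h1 => by
    by_cases hs : InS (shs d Ys) v ∧ v ∉ UH
    · intro he
      apply (hc2 v hs.1 hs.2).2
      rw [← he]
      exact h.Et v w (InS_sh hs.1) (Gex_q ha)
    · have hcv : c' v = c v := hc1 v (fun h2 => by
        by_contra h3
        exact hs ⟨h2, h3⟩)
      rw [hcv]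
      rcases Gex_q ha with h2 | h2
      · refine h.tc v w h2 (fun hi => ?_)
        rcases InS_cases (d := d) hi with h3 | h3
        · by_contra h4
          exact hs ⟨h3, h4⟩
        · exact h1 h3
      · rw [h.te v w h2, h.cU v (hH.EU v w h2)]
        exact hH.ct v (hH.EU v w h2)
  ti := fun v => (h.ti v).mono (fun w hw => by
    rcases hw with hw | hw
    · exact Gex_q hw
    · exact Or.inr hw)
  Et := fun v w hi hw => by
    refine h.Et v w (InS_lg hi) ?_
    rcases hw with hw | hw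
    · exact Gex_q hw
    · exact Or.inr hw
  EK := fun v hi hu => h.EK v (InS_lg hi) hu
  EU := fun v hv hi => h.EU v hv (InS_lg hi)
  Ed := fun v hi => by
    rw [nb_in_q dis hi]
    exact h.Ed v (InS_lg hi)
  CK := h.CK
  Cc := h.Cc
  Cd := h.Cd
  UZ := fun v hv hi => h.UZ v hv (InS_lg hi)
  ZY := fun Y hY => h.ZY Y (mem_lgs.1 hY).1
  av := fun v hi hz => h.av v (InS_lg hi) hz
  cell := fun Y hY i l => h.cell Y (mem_lgs.1 hY).1 i l
  ld := fun Y hY b => h.ld Y (mem_lgs.1 hY).1 b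

theorem stmt_VMIX (hVS : Stmt_VSHORT.{u})
    (hVQ : Pool.Agent.Work.MP_db9399_sl.Stmt_VSEQ.{u}) : Stmt_VMIX.{u} := by
  intro δ π hδ0 hδ1 hπ0 hπ1
  obtain ⟨δa, θa, hδa, hθa, hA⟩ := hVS δ π hδ0 hδ1 hπ0 hπ1
  obtain ⟨δb, θb, d0b, hδb, hθb, hB⟩ := hVQ δ π hδ0 hπ0 hπ1
  refine ⟨min δa (min δb (δ / 2)), min θa θb, by positivity, by positivity, ?_⟩
  intro x hx0 hx1
  obtain ⟨η, d0a, hη, hA⟩ := hA x hx0 (hx1.trans (min_le_left _ _))
  refine ⟨η, max d0a (max d0b ⌈4 / δ⌉₊), hη, ?_⟩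
  intro V _ k T0 y0 y1 B G EH d Ys Sm UH Gd Hs c0 tu c t E F0 K0 C p a Z Fy Mt pn hd hT hBB hy1 hTy
    hyB hH hCc hYu hYn hO hS
  have hda : d0a ≤ d := (le_max_left _ _).trans hd
  have hdb : d0b ≤ d := ((le_max_left _ _).trans (le_max_right _ _)).trans hd
  have hdc : (4 : ℝ) ≤ δ * d := by
    have h1 : ⌈4 / δ⌉₊ ≤ d := ((le_max_right _ _).trans (le_max_right _ _)).trans hd
    have h2 : 4 / δ ≤ (d : ℝ) := (Nat.le_ceil _).trans (by exact_mod_cast h1)
    rw [div_le_iff₀ hδ0] at h2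
    linarith
  have hd00 : (0 : ℝ) ≤ d := Nat.cast_nonneg _
  have hOa := Out.mono (δ' := δa) (min_le_left _ _) hO
  have hOb := Out.mono (δ' := δb) ((min_le_right _ _).trans (min_le_left _ _)) hO
  have hOc := Out.mono (δ' := δ / 2) ((min_le_right _ _).trans (min_le_right _ _)) hO
  obtain ⟨c', Z', a1, a2, a3, a4, a5, a6, a7, a8⟩ := hA T0 y0 y1 B G EH d Ys Sm UH Gd Hs c0 tu c t E
    F0 K0 C p a Z Fy Mt pn hda hT hBB hy1 hTy hyB hH hCc hOa (SHH.mono (min_le_left _ _) hS)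
  have hθm : ∀ θ' : ℝ, min θa θb ≤ θ' → (1 - θ') * (d : ℝ) ≤ (1 - min θa θb) * d := fun θ' h =>
    mul_le_mul_of_nonneg_right (by linarith) hd00
  obtain ⟨c2, Z2, F2, b1, b2, b3⟩ := hB (Gq G EH (shs d Ys)) d k (lgs d Ys) UH c0 EH tu c' t E K0
    C p a Z hdb
    (fun v => (card_le_card (fun w hw => by
      rw [mem_nb'] at hw ⊢
      exact hw.1)).trans (hS.deg v))
    (fun Y hY Y' hY' hne => hS.dis Y (mem_lgs.1 hY).1 Y' (mem_lgs.1 hY').1 hne)
    (fun Y hY => ⟨not_lt.1 (mem_lgs.1 hY).2, (hYu Y (mem_lgs.1 hY).1).trans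
      (mul_le_mul_of_nonneg_right (by linarith [min_le_right θa θb]) hd00)⟩)
    (fun Y hY v hv => by
      rw [nb_q hS.dis ⟨Y, hY, hv⟩]
      exact (hθm θb (min_le_right _ _)).trans (hS.inn Y (mem_lgs.1 hY).1 v hv))
    (fun Y hY v hv => by
      rw [nb_q hS.dis ⟨Y, hY, hv⟩]
      exact (hYn Y (mem_lgs.1 hY).1 v hv).trans
        (mul_le_mul_of_nonneg_right (min_le_right _ _) hd00))
    (HPre_q hH) hCc
    (Out_q hS.dis hH hOb a1 (fun v h1 h2 => ⟨(a5 v h1 h2).1, (a5 v h1 h2).2.1⟩) a6)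
  have hsl : ∀ v, InS (shs d Ys) v → ¬ InS (lgs d Ys) v := fun v h h' => InS_not hS.dis h' h
  have hcs : ∀ v, InS (shs d Ys) v → c2 v = c' v := fun v h => b1 v (hsl v h)
  set Zf : Finset V := univ.filter (fun v => v ∈ Z ∨ (InS (shs d Ys) v ∧ v ∈ Z') ∨
    (InS (lgs d Ys) v ∧ v ∈ Z2)) with hZf
  have mZf : ∀ v, v ∈ Zf ↔ (v ∈ Z ∨ (InS (shs d Ys) v ∧ v ∈ Z') ∨
    (InS (lgs d Ys) v ∧ v ∈ Z2)) := fun v => by rw [hZf, mem_filter]; simp
  set F : V → Finset (Fin k) := fun v => if InS (shs d Ys) v then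
    (if v ∈ UH then F0 v else insert (c' v) (E v)) else F2 v with hF
  have Fs : ∀ v, InS (shs d Ys) v → F v = if v ∈ UH then F0 v else insert (c' v) (E v) :=
    fun v h => by rw [hF]; simp only [h, if_true]
  have Fl : ∀ v, InS (lgs d Ys) v → F v = F2 v := fun v h => by
    have h1 : ¬ InS (shs d Ys) v := InS_not hS.dis h
    rw [hF]; simp only [h1, if_false]
  have hcu : ∀ v, v ∈ UH → c' v = c0 v := fun v hv => by
    rw [a1 v (fun _ => hv)]; exact hO.cU v hv
  refine ⟨c2, Zf, F, ?_, ?_, ?_⟩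
  · intro v hv
    rw [b1 v (fun h => hv (InS_lg h)), a1 v (fun h => absurd (InS_sh h) hv)]
  · intro v hv
    exact (mZf v).2 (Or.inl hv)
  · exact {
      cU := fun v hv => b3.cU v hv
      cc := fun v w ha => by
        by_cases hs : Same (shs d Ys) v w → EH.Adj v w
        · exact b3.cc v w ⟨ha, hs⟩
        · push Not at hs
          obtain ⟨⟨Y, hY, h1, h2⟩, _⟩ := hs
          have i1 : InS (shs d Ys) v := ⟨Y, hY, h1⟩
          have i2 : InS (shs d Ys) w := ⟨Y, hY, h2⟩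
          rw [hcs v i1, hcs w i2]
          exact a6 v w ha (fun _ => Or.inl i1) (fun _ => Or.inl i2)
      cE := fun v hv => by
        rcases InS_cases (d := d) hv with h1 | h1
        · rw [hcs v h1]
          by_cases hu : v ∈ UH
          · rw [hcu v hu]; exact (hO.EU v hu hv).2
          · exact (a5 v h1 hu).2.1
        · exact b3.cE v h1
      EF := fun v hv => by
        rcases InS_cases (d := d) hv with h1 | h1
        · rw [Fs v h1]
          by_cases hu : v ∈ UH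
          · rw [if_pos hu]; exact hS.F0E v hu hv
          · rw [if_neg hu]
            exact inter_subset_left.trans (subset_insert _ _)
        · rw [Fl v h1]; exact b3.EF v h1
      cF := fun v hv hk => by
        rcases InS_cases (d := d) hv with h1 | h1
        · rw [Fs v h1]
          rw [hcs v h1] at hk ⊢
          by_cases hu : v ∈ UH
          · rw [if_pos hu]
            rw [hcu v hu] at hk ⊢
            exact hS.F0c v hu hv hk
          · rw [if_neg hu]
            exact mem_insert_self _ _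
        · rw [Fl v h1]; exact b3.cF v h1 hk
      FK := fun v hv => by
        rcases InS_cases (d := d) hv with h1 | h1
        · rw [Fs v h1]
          by_cases hu : v ∈ UH
          · rw [if_pos hu]; exact hS.F0K v hu hv
          · rw [if_neg hu]
            exact insert_subset (a5 v h1 hu).1 (hO.EK v hv hu)
        · rw [Fl v h1]; exact b3.FK v h1
      Fd := fun v hv => by
        rcases InS_cases (d := d) hv with h1 | h1
        · rw [Fs v h1]
          by_cases hu : v ∈ UH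
          · rw [if_pos hu]; exact hS.F0d v hu hv
          · rw [if_neg hu, card_insert_of_notMem (a5 v h1 hu).2.1]
            have h2 := hO.Ed v hv
            have h3 : (nb (⊥ : SimpleGraph V) v).card = 0 := by
              rw [card_eq_zero]
              apply eq_empty_of_forall_notMem
              intro w hw
              rw [mem_nb'] at hw
              exact hw
            omega
        · rw [Fl v h1, ← nb_in_q (G := G) (EH := EH) hS.dis h1]
          exact b3.Fd v h1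
      av := fun v hv hz => by
        rw [mZf] at hz
        push Not at hz
        rcases InS_cases (d := d) hv with h1 | h1
        · rw [Fs v h1]
          have hu : v ∉ UH := fun hu => hz.1 (hO.UZ v hu hv)
          rw [if_neg hu, disjoint_insert_left]
          exact ⟨(a5 v h1 hu).2.2 (hz.2.1 h1), hO.av v hv hz.1⟩
        · rw [Fl v h1]
          exact b3.av v h1 (hz.2.2 h1)
      ZY := fun Y hY => by
        by_cases hc : Y.card < d
        · have hYs := mem_shs.2 ⟨hY, hc⟩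
          refine le_trans ?_ (a4 Y hYs)
          have hsub : Y ∩ Zf ⊆ Y ∩ Z' := by
            intro v hv
            rw [mem_inter, mZf] at hv
            refine mem_inter.2 ⟨hv.1, ?_⟩
            rcases hv.2 with h1 | h1 | h1
            · exact a2 h1
            · exact h1.2
            · exact absurd h1.1 (hsl v ⟨Y, hYs, hv.1⟩)
          exact_mod_cast card_le_card hsub
        · have hYs := mem_lgs.2 ⟨hY, hc⟩
          refine le_trans ?_ (b3.ZY Y hYs)
          have hsub : Y ∩ Zf ⊆ Y ∩ Z2 := by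
            intro v hv
            rw [mem_inter, mZf] at hv
            refine mem_inter.2 ⟨hv.1, ?_⟩
            rcases hv.2 with h1 | h1 | h1
            · exact b2 h1
            · exact absurd ⟨Y, hYs, hv.1⟩ (hsl v h1.1)
            · exact h1.2
          exact_mod_cast card_le_card hsub
      ld := fun Y hY b => by
        by_cases hc : Y.card < d
        · have hYs := mem_shs.2 ⟨hY, hc⟩
          have h1 := hOc.ld Y hY b
          have h2 := a7 Y hYs b
          have hsub : Y.filter (fun v => v ∉ Zf ∧ b ∈ F v) ⊆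
              Y.filter (fun v => v ∉ Z ∧ b ∈ E v) ∪ Y.filter (fun v => v ∉ UH ∧ c' v = b) := by
            intro v hv
            rw [mem_filter] at hv
            obtain ⟨hv1, hv2, hv3⟩ := hv
            have i1 : InS (shs d Ys) v := ⟨Y, hYs, hv1⟩
            rw [mZf] at hv2
            push Not at hv2
            have hu : v ∉ UH := fun hu => hv2.1 (hO.UZ v hu (InS_sh i1))
            rw [Fs v i1, if_neg hu, mem_insert] at hv3
            rw [mem_union, mem_filter, mem_filter]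
            rcases hv3 with h3 | h3
            · exact Or.inr ⟨hv1, hu, h3.symm⟩
            · exact Or.inl ⟨hv1, hv2.1, h3⟩
          have h3 := (card_le_card hsub).trans (card_union_le _ _)
          have h4 : ((Y.filter (fun v => v ∉ Zf ∧ b ∈ F v)).card : ℝ) ≤
              (Y.filter (fun v => v ∉ Z ∧ b ∈ E v)).card +
              (Y.filter (fun v => v ∉ UH ∧ c' v = b)).card := by exact_mod_cast h3
          have h5 : ((Y.filter (fun v => v ∉ UH ∧ c' v = b)).card : ℝ) ≤ 2 := by exact_mod_cast h2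
          linarith
        · have hYs := mem_lgs.2 ⟨hY, hc⟩
          refine le_trans ?_ (b3.ld Y hYs b)
          have hsub : Y.filter (fun v => v ∉ Zf ∧ b ∈ F v) ⊆
              Y.filter (fun v => v ∉ Z2 ∧ b ∈ F2 v) := by
            intro v hv
            rw [mem_filter] at hv
            obtain ⟨hv1, hv2, hv3⟩ := hv
            have i1 : InS (lgs d Ys) v := ⟨Y, hYs, hv1⟩
            rw [mZf] at hv2
            push Not at hv2
            rw [Fl v i1] at hv3
            exact mem_filter.2 ⟨hv1, hv2.2.2 i1, hv3⟩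
          exact_mod_cast card_le_card hsub
      par := fun Y hY => by
        by_cases hc : Y.card < d
        · have hYs := mem_shs.2 ⟨hY, hc⟩
          rw [odd_congr Y F (fun v => if v ∈ UH then F0 v else insert (c' v) (E v)) K0
            (fun v hv => Fs v ⟨Y, hYs, hv⟩)]
          exact a8 Y hYs
        · have hYs := mem_lgs.2 ⟨hY, hc⟩
          rw [odd_congr Y F F2 K0 (fun v hv => Fl v ⟨Y, hYs, hv⟩)]
          exact b3.par Y hYs }

end Pool.Agent.Work.MP_db9399_sw_helper54
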